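import Mathlib

namespace Pool.Agent.H.MP_1d7c3b_pr

open MeasureTheory ProbabilityTheory Real
open scoped ENNReal

noncomputable def E (u : ℝ) : ℝ := exp (-u ^ 2 / 2)
noncomputable abbrev γ : Measure ℝ := gaussianReal 0 1
noncomputable abbrev φ : ℝ → ℝ := gaussianPDFReal 0 1
noncomputable def ν (r : ℝ → ℝ) : Measure ℝ := volume.withDensity fun x => ENNReal.ofReal (φ x * r x)

lemma E0 (u : ℝ) : 0 < E u := exp_pos _

lemma φ0 (x : ℝ) : 0 < φ x := gaussianPDFReal_pos _ _ _ one_ne_zero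

lemma intν {V : Type*} [NormedAddCommGroup V] [NormedSpace ℝ V] {r : ℝ → ℝ} (m : Measurable r)
    (h : ∀ x, 0 ≤ r x) (F : ℝ → V) : ∫ x, F x ∂ν r = ∫ x, r x • F x ∂γ := by
  rw [ν, integral_withDensity_eq_integral_toReal_smul (by fun_prop) (by simp),
    integral_gaussianReal_eq_integral_smul one_ne_zero]
  refine integral_congr_ae (.of_forall fun x => ?_)
  simp only
  rw [ENNReal.toReal_ofReal (mul_nonneg (φ0 x).le (h x)), mul_smul]

lemma bdd {V : Type*} [NormedAddCommGroup V] {F : ℝ → V} (c : Continuous F) (C : ℝ)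
    (h : ∀ x, ‖F x‖ ≤ C) : Integrable F γ :=
  Integrable.of_bound c.aestronglyMeasurable C (.of_forall h)

lemma toγ {F : ℝ → ℝ} : Integrable (fun x => φ x * F x) ↔ Integrable F γ := by
  rw [γ, gaussianReal_of_var_ne_zero _ one_ne_zero,
    integrable_withDensity_iff_integrable_smul' (measurable_gaussianPDF _ _) (.of_forall fun _ => gaussianPDF_lt_top)]
  simp

def FT (r ψ : ℝ → ℝ) : Prop := ∀ t : ℝ, Integrable (fun x => r x • Complex.exp (t * x * Complex.I)) γ ∧
  ∫ x, r x • Complex.exp (t * x * Complex.I) ∂γ = (ψ t : ℝ)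

lemma FT.add {r s ψ χ : ℝ → ℝ} (h : FT r ψ) (k : FT s χ) : FT (fun x => r x + s x) fun t => ψ t + χ t := by
  intro t
  simp only [add_smul]
  exact ⟨(h t).1.add (k t).1, by rw [integral_add (h t).1 (k t).1, (h t).2, (k t).2]; push_cast; rfl⟩

lemma FT.mul {r ψ : ℝ → ℝ} (c : ℝ) (h : FT r ψ) : FT (fun x => c * r x) fun t => c * ψ t := by
  intro t
  simp only [mul_smul]
  exact ⟨(h t).1.smul c, by rw [integral_smul, (h t).2]; simp⟩

lemma H1 : FT (fun _ => 1) E := by
  intro t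
  simp only [one_smul]
  refine ⟨bdd (by fun_prop) 1 fun x => ?_, ?_⟩
  · rw [← Complex.ofReal_mul, Complex.norm_exp_ofReal_mul_I]
  · rw [← charFun_apply_real, charFun_gaussianReal, E]; push_cast; congr 1; simp; ring

noncomputable def K (c t : ℝ) : ℝ := (E (t - c) + E (t + c)) / 2

lemma Hc (c : ℝ) : FT (fun x => cos (c * x)) (K c) := by
  intro t
  have a := H1 (t - c)
  have b := H1 (t + c)
  simp only [one_smul] at a b
  have e : ∀ x : ℝ, cos (c * x) • Complex.exp (t * x * Complex.I) = (1 / 2 : ℝ) •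
      (Complex.exp ((t - c : ℝ) * x * Complex.I) + Complex.exp ((t + c : ℝ) * x * Complex.I)) := by
    intro x
    simp only [Complex.real_smul, Complex.ofReal_cos, Complex.cos]
    push_cast
    rw [sub_mul, sub_mul, add_mul, add_mul, sub_eq_add_neg, Complex.exp_add, Complex.exp_add, neg_mul]
    ring
  simp_rw [e]
  exact ⟨(a.1.add b.1).smul (1 / 2 : ℝ), by rw [integral_smul, integral_add a.1 b.1, a.2, b.2, K]; simp; ring⟩

lemma FT.int {r ψ : ℝ → ℝ} (h : FT r ψ) : Integrable r γ ∧ ∫ x, r x ∂γ = ψ 0 := by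
  obtain ⟨a, b⟩ := h 0
  simp only [Complex.ofReal_zero, zero_mul, Complex.exp_zero, Complex.real_smul, mul_one] at a b
  rw [integral_complex_ofReal] at b
  exact ⟨by simpa using a.re, by exact_mod_cast b⟩

lemma FT.fin {r ψ : ℝ → ℝ} (h : FT r ψ) : IsFiniteMeasure (ν r) :=
  isFiniteMeasure_withDensity_ofReal (toγ.2 h.int.1).2

lemma FT.cf {r ψ : ℝ → ℝ} (h : FT r ψ) (m : Measurable r) (p : ∀ x, 0 ≤ r x) (t : ℝ) :
    charFun (ν r) t = (ψ t : ℝ) := by
  rw [charFun_apply_real, intν m p, (h t).2]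

lemma sq_int : Integrable (fun x : ℝ => x ^ 2) γ := by
  simpa using (memLp_id_gaussianReal (μ := 0) (v := 1) 2).integrable_sq

lemma ent {r : ℝ → ℝ} (c : Continuous r) (p : ∀ x, 0 < r x) (q : ∀ x, r x ≤ 2) :
    ∫ x, negMulLog (((ν r).rnDeriv volume x).toReal) = log (√(2 * π)) * ∫ x, r x ∂γ +
      1 / 2 * ∫ x, r x * x ^ 2 ∂γ + ∫ x, negMulLog (r x) ∂γ := by
  have b : ∀ x, ‖r x‖ ≤ 2 := fun x => by rw [norm_of_nonneg (p x).le]; exact q x
  have i1 := bdd c 2 b
  have i2 : Integrable (fun x => r x * x ^ 2) γ := sq_int.bdd_mul c.aestronglyMeasurable (.of_forall b)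
  have i3 : Integrable (fun x => negMulLog (r x)) γ := by
    obtain ⟨C, hC⟩ := (isCompact_Icc (a := (0 : ℝ)) (b := 2)).exists_bound_of_continuousOn
      continuous_negMulLog.continuousOn
    exact bdd (continuous_negMulLog.comp c) C fun x => hC _ ⟨(p x).le, q x⟩
  have i4 : Integrable (fun x => log (√(2 * π)) * r x + 1 / 2 * (r x * x ^ 2)) γ :=
    (i1.const_mul _).add (i2.const_mul _)
  rw [← integral_const_mul, ← integral_const_mul, ← integral_add (i1.const_mul _) (i2.const_mul _),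
    ← integral_add i4 i3,
    integral_gaussianReal_eq_integral_smul one_ne_zero]
  have m := c.measurable
  refine integral_congr_ae ?_
  filter_upwards [Measure.rnDeriv_withDensity (volume : Measure ℝ)
    (f := fun x => ENNReal.ofReal (φ x * r x)) (by fun_prop)] with x hx
  rw [ν, hx, ENNReal.toReal_ofReal (mul_pos (φ0 x) (p x)).le, negMulLog, negMulLog,
    log_mul (φ0 x).ne' (p x).ne']
  have : log (φ x) = -log (√(2 * π)) - x ^ 2 / 2 := by
    simp only [φ, gaussianPDFReal]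
    rw [log_mul (by positivity) (exp_pos _).ne', log_exp, log_inv]
    simp; ring
  rw [this]
  simp only [smul_eq_mul, Pi.add_apply]
  ring

noncomputable def Z : ℝ := 1 + 1 / 1000 * E 20

noncomputable def r0 (x : ℝ) : ℝ := Z⁻¹ * (1 + 1 / 1000 * cos (20 * x))

noncomputable def R (a b x : ℝ) : ℝ := Z⁻¹ ^ 2 * (1 + 1 / 1000 * E (20 * b) * cos (20 * a * x) +
  1 / 1000 * E (20 * a) * cos (20 * b * x) + 1 / 2000000 * E (20 * (a - b)) * cos (20 * (a + b) * x) +
  1 / 2000000 * E (20 * (a + b)) * cos (20 * (a - b) * x))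

lemma Z1 : 1 ≤ Z := by have := E0 20; unfold Z; linarith

lemma Hr : FT r0 fun t => Z⁻¹ * (E t + 1 / 1000 * K 20 t) := (H1.add ((Hc 20).mul _)).mul _

lemma r0pos (x : ℝ) : 0 < r0 x ∧ r0 x ≤ 2 := by
  have := neg_one_le_cos (20 * x)
  have := cos_le_one (20 * x)
  have z := Z1
  have : Z⁻¹ ≤ 1 := inv_le_one_of_one_le₀ z
  have : 0 < Z⁻¹ := by positivity
  unfold r0
  constructor <;> nlinarith

lemma cr0 : Continuous r0 := by unfold r0; fun_prop

lemma cR (a b : ℝ) : Continuous (R a b) := by unfold R; fun_prop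

lemma HR {a b : ℝ} (h : a ^ 2 + b ^ 2 = 1) : FT (R a b) fun t =>
    Z⁻¹ * (E (a * t) + 1 / 1000 * K 20 (a * t)) * (Z⁻¹ * (E (b * t) + 1 / 1000 * K 20 (b * t))) := by
  have := ((((H1.add ((Hc (20 * a)).mul (1 / 1000 * E (20 * b)))).add
    ((Hc (20 * b)).mul (1 / 1000 * E (20 * a)))).add
    ((Hc (20 * (a + b))).mul (1 / 2000000 * E (20 * (a - b))))).add
    ((Hc (20 * (a - b))).mul (1 / 2000000 * E (20 * (a + b))))).mul (Z⁻¹ ^ 2)
  intro t
  have e : ∀ u v w z : ℝ, u ^ 2 + v ^ 2 = w ^ 2 + z ^ 2 → E u * E v = E w * E z := fun u v w z k => by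
    simp only [E, ← exp_add]; congr 1; linarith
  have e0 := e (a * t) (b * t) 0 t (by linear_combination t ^ 2 * h)
  have e1 := e (a * t - 20) (b * t) (20 * b) (t - 20 * a) (by linear_combination (t ^ 2 - 400) * h)
  have e2 := e (a * t + 20) (b * t) (20 * b) (t + 20 * a) (by linear_combination (t ^ 2 - 400) * h)
  have e3 := e (a * t) (b * t - 20) (20 * a) (t - 20 * b) (by linear_combination (t ^ 2 - 400) * h)
  have e4 := e (a * t) (b * t + 20) (20 * a) (t + 20 * b) (by linear_combination (t ^ 2 - 400) * h)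
  have e5 := e (a * t - 20) (b * t - 20) (20 * (a - b)) (t - 20 * (a + b))
    (by linear_combination (t ^ 2 - 800) * h)
  have e6 := e (a * t + 20) (b * t + 20) (20 * (a - b)) (t + 20 * (a + b))
    (by linear_combination (t ^ 2 - 800) * h)
  have e7 := e (a * t - 20) (b * t + 20) (20 * (a + b)) (t - 20 * (a - b))
    (by linear_combination (t ^ 2 - 800) * h)
  have e8 := e (a * t + 20) (b * t - 20) (20 * (a + b)) (t + 20 * (a - b))
    (by linear_combination (t ^ 2 - 800) * h)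
  rw [show E 0 = 1 by simp [E]] at e0
  refine ⟨(this t).1, (this t).2.trans ?_⟩
  congr 1
  simp only [K]
  linear_combination (-Z⁻¹ ^ 2) * (e0 + 1 / 2000 * (e1 + e2 + e3 + e4) + 1 / 4000000 * (e5 + e6 + e7 + e8))

instance : IsProbabilityMeasure (ν r0) := by
  have := Hr.fin
  refine isProbabilityMeasure_iff_real.2 ?_
  have h := intν cr0.measurable (fun x => (r0pos x).1.le) fun _ => (1 : ℝ)
  simp only [integral_const, smul_eq_mul, mul_one] at h
  rw [h, Hr.int.2]
  have := Z1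
  simp only [K, E, Z] at *
  norm_num at *
  field_simp

noncomputable abbrev P : Measure (Fin 2 → ℝ) := Measure.pi fun _ => ν r0

lemma ind : iIndepFun (fun (i : Fin 2) (ω : Fin 2 → ℝ) => ω i) P :=
  iIndepFun_pi (X := fun _ x => x) fun _ => aemeasurable_id

lemma mp (i : Fin 2) : P.map (fun ω => ω i) = ν r0 := (measurePreserving_eval _ i).map_eq

lemma law {a b : ℝ} (h : a ^ 2 + b ^ 2 = 1) (p : ∀ x, 0 ≤ R a b x) :
    P.map (fun ω => a * ω 0 + b * ω 1) = ν (R a b) := by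
  have := (HR h).fin
  refine Measure.ext_of_charFun ?_
  have i : IndepFun (fun ω : Fin 2 → ℝ => a * ω 0) (fun ω => b * ω 1) P :=
    (ind.indepFun (show (0 : Fin 2) ≠ 1 by decide)).comp (measurable_const_mul a) (measurable_const_mul b)
  rw [IndepFun.charFun_map_fun_add_eq_mul (Measurable.aemeasurable (by fun_prop))
    (Measurable.aemeasurable (by fun_prop)) i]
  ext t
  rw [Pi.mul_apply, charFun_map_mul_comp (measurable_pi_apply 0).aemeasurable,
    charFun_map_mul_comp (measurable_pi_apply 1).aemeasurable, mp, mp,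
    Hr.cf cr0.measurable fun x => (r0pos x).1.le, Hr.cf cr0.measurable fun x => (r0pos x).1.le,
    (HR h).cf (cR a b).measurable p]
  push_cast; ring

lemma φneg (x : ℝ) : φ (-x) = φ x := by simp [φ, gaussianPDFReal]

lemma r0neg (x : ℝ) : r0 (-x) = r0 x := by simp [r0]

lemma L2 : MemLp (fun x : ℝ => x) 2 (ν r0) := by
  refine (memLp_two_iff_integrable_sq (by fun_prop)).2 ?_
  have m := cr0.measurable
  rw [ν, integrable_withDensity_iff_integrable_smul' (by fun_prop) (by simp)]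
  have := toγ.2 (sq_int.bdd_mul (c := 2) cr0.aestronglyMeasurable (.of_forall fun x => by
    rw [norm_of_nonneg (r0pos x).1.le]; exact (r0pos x).2))
  refine this.congr (.of_forall fun x => ?_)
  simp only [ENNReal.toReal_ofReal (mul_pos (φ0 x) (r0pos x).1).le, smul_eq_mul, mul_assoc]

lemma mean0 : ∫ x, x ∂ν r0 = 0 := by
  rw [intν cr0.measurable fun x => (r0pos x).1.le, integral_gaussianReal_eq_integral_smul one_ne_zero]
  have := integral_neg_eq_self (fun x => φ x • r0 x • x) volume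
  simp only [φneg, r0neg, smul_neg, integral_neg] at this
  linarith

lemma mom {a b : ℝ} (h : a ^ 2 + b ^ 2 = 1) (p : ∀ x, 0 ≤ R a b x) :
    ∫ x, R a b x * x ^ 2 ∂γ = ∫ x, x ^ 2 ∂ν r0 := by
  have e := intν (cR a b).measurable p fun x : ℝ => x ^ 2
  simp only [smul_eq_mul] at e
  rw [← e, ← law h p, integral_map (by fun_prop) (by fun_prop)]
  have l : ∀ i : Fin 2, MemLp (fun ω : Fin 2 → ℝ => ω i) 2 P := fun i =>
    L2.comp_measurePreserving (measurePreserving_eval _ i)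
  have t : ∀ (i : Fin 2) (F : ℝ → ℝ), Continuous F → ∫ ω, F (ω i) ∂P = ∫ x, F x ∂ν r0 := fun i F c => by
    rw [← mp i, integral_map (measurable_pi_apply i).aemeasurable c.aestronglyMeasurable]
  have i0 := (l 0).integrable_sq.const_mul (a ^ 2)
  have i1 := (l 1).integrable_sq.const_mul (b ^ 2)
  have i2 : Integrable (fun ω : Fin 2 → ℝ => 2 * a * b * (ω 0 * ω 1)) P :=
    ((l 0).integrable_mul (l 1)).const_mul _
  have i3 : Integrable (fun ω : Fin 2 → ℝ => a ^ 2 * ω 0 ^ 2 + b ^ 2 * ω 1 ^ 2) P := i0.add i1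
  rw [show (fun ω : Fin 2 → ℝ => (a * ω 0 + b * ω 1) ^ 2) =
    fun ω => a ^ 2 * ω 0 ^ 2 + b ^ 2 * ω 1 ^ 2 + 2 * a * b * (ω 0 * ω 1) by ext; ring,
    integral_add i3 i2, integral_add i0 i1, integral_const_mul, integral_const_mul, integral_const_mul,
    (ind.indepFun (show (0 : Fin 2) ≠ 1 by decide)).integral_fun_mul_eq_mul_integral
      (l 0).1 (l 1).1, t 0 (· ^ 2) (by fun_prop), t 1 (· ^ 2) (by fun_prop),
    t 0 (fun x => x) (by fun_prop), mean0]
  linear_combination (∫ x, x ^ 2 ∂ν r0) * h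

lemma one {a b : ℝ} (h : a ^ 2 + b ^ 2 = 1) (p : ∀ x, 0 ≤ R a b x) : ∫ x, R a b x ∂γ = 1 := by
  have e := intν (cR a b).measurable p fun _ => (1 : ℝ)
  simp only [smul_eq_mul, mul_one, integral_const] at e
  have : IsProbabilityMeasure (ν (R a b)) := by
    rw [← law h p]; exact Measure.isProbabilityMeasure_map (by fun_prop)
  rw [← e]; simp

lemma Eb {u v : ℝ} (k : ℕ) (v0 : 0 ≤ v) (h : 2 * k * v ≤ u ^ 2) : E u ≤ 1 / (1 + v) ^ k := by
  rw [E, neg_div, exp_neg, one_div]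
  refine inv_anti₀ (by positivity) ?_
  calc (1 + v) ^ k ≤ exp v ^ k := by gcongr; linarith [add_one_le_exp v]
    _ = exp (k * v) := (exp_nat_mul v k).symm
    _ ≤ _ := exp_le_exp.2 (by linarith)

lemma Zi : 1 - 1 / 10 ^ 10 ≤ Z⁻¹ ^ 2 ∧ Z⁻¹ ^ 2 ≤ 1 := by
  have z := Z1
  have e := Eb (u := 20) (v := 9) 8 (by norm_num) (by norm_num)
  have : Z ≤ 1 + 1 / 10 ^ 11 := by unfold Z; norm_num at e ⊢; linarith
  have a : Z⁻¹ ≤ 1 := inv_le_one_of_one_le₀ z
  have b : 1 - 1 / 10 ^ 11 ≤ Z⁻¹ := by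
    rw [inv_eq_one_div, le_div_iff₀ (by linarith)]; nlinarith
  constructor <;> nlinarith

lemma tm {u v y : ℝ} (h : E u ≤ v) : -v ≤ E u * cos y ∧ E u * cos y ≤ v := by
  have := E0 u
  have := neg_one_le_cos y
  have := cos_le_one y
  constructor <;> nlinarith

lemma b1 (x : ℝ) : |R (3 / 5) (4 / 5) x - 1| ≤ 1 / 10 ^ 8 := by
  obtain ⟨z1, z2⟩ := Zi
  obtain ⟨a1, a2⟩ := tm (y := 20 * (3 / 5) * x) (Eb (u := 20 * (4 / 5)) (v := 9) 8 (by norm_num) (by norm_num))
  obtain ⟨b1, b2⟩ := tm (y := 20 * (4 / 5) * x) (Eb (u := 20 * (3 / 5)) (v := 9) 8 (by norm_num) (by norm_num))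
  obtain ⟨c1, c2⟩ := tm (y := 20 * (3 / 5 + 4 / 5) * x)
    (Eb (u := 20 * (3 / 5 - 4 / 5)) (v := 2) 4 (by norm_num) (by norm_num))
  obtain ⟨d1, d2⟩ := tm (y := 20 * (3 / 5 - 4 / 5) * x)
    (Eb (u := 20 * (3 / 5 + 4 / 5)) (v := 9) 8 (by norm_num) (by norm_num))
  simp only [R, mul_assoc] at *
  generalize Z⁻¹ ^ 2 = z at *
  generalize E _ * cos (20 * (3 / 5 * x)) = a at *
  generalize E _ * cos (20 * (4 / 5 * x)) = b at *
  generalize E _ * cos (20 * ((3 / 5 + 4 / 5) * x)) = c at *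
  generalize E _ * cos (20 * ((3 / 5 - 4 / 5) * x)) = d at *
  norm_num at *
  rw [abs_le]
  constructor <;> nlinarith

lemma b2 {s : ℝ} (h : s ^ 2 + s ^ 2 = 1) (x : ℝ) :
    |R s s x - 1 - 1 / 2000000 * cos (40 * s * x)| ≤ 1 / 10 ^ 8 := by
  obtain ⟨z1, z2⟩ := Zi
  obtain ⟨a1, a2⟩ := tm (y := 20 * s * x) (Eb (u := 20 * s) (v := 9) 8 (by norm_num) (by norm_num; nlinarith))
  obtain ⟨d1, d2⟩ := tm (y := 20 * (s - s) * x)
    (Eb (u := 20 * (s + s)) (v := 9) 8 (by norm_num) (by norm_num; nlinarith))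
  have c1 := neg_one_le_cos (40 * s * x)
  have c2 := cos_le_one (40 * s * x)
  have : E (20 * (s - s)) = 1 := by simp [E]
  simp only [R, this, show 20 * (s + s) * x = 40 * s * x by ring] at *
  simp only [mul_assoc] at *
  generalize Z⁻¹ ^ 2 = z at *
  generalize E _ * cos (20 * (s * x)) = a at *
  generalize cos (40 * (s * x)) = c at *
  generalize E _ * cos (20 * ((s - s) * x)) = d at *
  norm_num at *
  rw [abs_le]
  constructor <;> nlinarith

lemma conc (x y t : ℝ) (t0 : 0 ≤ t) (t1 : t ≤ 1) :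
    (φ x * r0 x) ^ t * (φ y * r0 y) ^ (1 - t) ≤ φ (t * x + (1 - t) * y) * r0 (t * x + (1 - t) * y) := by
  have p : ∀ x, 0 < 1 + 1 / 1000 * cos (20 * x) := fun x => by linarith [neg_one_le_cos (20 * x)]
  let W : ℝ → ℝ := fun x => -x ^ 2 / 2 + log (1 + 1 / 1000 * cos (20 * x))
  let W1 : ℝ → ℝ := fun x => -x + (-(1 / 50) * sin (20 * x)) / (1 + 1 / 1000 * cos (20 * x))
  have u : ∀ x, HasDerivAt (fun x => 1 + 1 / 1000 * cos (20 * x)) (-(1 / 50) * sin (20 * x)) x := fun x => by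
    have := ((((hasDerivAt_id x).const_mul 20).cos).const_mul (1 / 1000)).const_add 1
    refine this.congr_deriv ?_
    simp; ring
  have d1 : ∀ x, HasDerivAt W (W1 x) x := fun x => by
    have := (((hasDerivAt_pow 2 x).neg).div_const 2).add ((u x).log (p x).ne')
    refine this.congr_deriv ?_
    simp only [W1]; norm_num; ring
  have d2 : ∀ x, ∃ v ≤ 0, HasDerivAt W1 v x := fun x => by
    have := (hasDerivAt_id x).neg.add
      (((((hasDerivAt_id x).const_mul 20).sin).const_mul (-(1 / 50))).div (u x) (p x).ne')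
    refine ⟨_, ?_, this⟩
    have := p x
    have := neg_one_le_cos (20 * x)
    have := cos_le_one (20 * x)
    have := sin_sq_add_cos_sq (20 * x)
    rw [neg_add_nonpos_iff, div_le_one (by positivity)]
    simp only [id]
    nlinarith
  have cW : ConcaveOn ℝ Set.univ W := by
    refine Antitone.concaveOn_univ_of_deriv (fun x => (d1 x).differentiableAt) ?_
    rw [show deriv W = W1 from funext fun x => (d1 x).deriv]
    exact antitone_of_deriv_nonpos (fun x => (d2 x).choose_spec.2.differentiableAt) fun x => by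
      rw [(d2 x).choose_spec.2.deriv]; exact (d2 x).choose_spec.1
  have z := Z1
  have e : ∀ x, φ x * r0 x = exp (log ((√(2 * π))⁻¹ * Z⁻¹) + W x) := fun x => by
    simp only [W, exp_add, exp_log (p x), φ, gaussianPDFReal, r0]
    rw [exp_log (by positivity)]
    simp; ring
  have := cW.2 (Set.mem_univ x) (Set.mem_univ y) t0 (sub_nonneg.2 t1) (by ring)
  simp only [smul_eq_mul] at this
  rw [e, e, e, ← exp_mul, ← exp_mul, ← exp_add, exp_le_exp]
  linarith

lemma main {s : ℝ} (h : s ^ 2 + s ^ 2 = 1) :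
    ∫ x, negMulLog (((P.map fun ω => s * ω 0 + s * ω 1).rnDeriv volume x).toReal) <
      ∫ x, negMulLog (((P.map fun ω => 3 / 5 * ω 0 + 4 / 5 * ω 1).rnDeriv volume x).toReal) := by
  have h' : (3 / 5 : ℝ) ^ 2 + (4 / 5) ^ 2 = 1 := by norm_num
  have p1 : ∀ x, 0 < R (3 / 5) (4 / 5) x ∧ R (3 / 5) (4 / 5) x ≤ 2 := fun x => by
    obtain ⟨a, b⟩ := abs_le.1 (b1 x)
    constructor <;> linarith
  have p2 : ∀ x, 0 < R s s x ∧ R s s x ≤ 2 := fun x => by
    obtain ⟨a, b⟩ := abs_le.1 (b2 h x)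
    have c1 := neg_one_le_cos (40 * s * x)
    have c2 := cos_le_one (40 * s * x)
    constructor <;> linarith
  have n1 := fun x => (p1 x).1.le
  have n2 := fun x => (p2 x).1.le
  rw [law h n2, law h' n1, ent (cR _ _) (fun x => (p1 x).1) fun x => (p1 x).2,
    ent (cR _ _) (fun x => (p2 x).1) fun x => (p2 x).2, mom h n2, mom h' n1, one h n2, one h' n1,
    add_lt_add_iff_left]
  have i : ∀ {a b : ℝ}, (∀ x, 0 < R a b x ∧ R a b x ≤ 2) → Integrable (fun x => negMulLog (R a b x)) γ := by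
    intro a b p
    obtain ⟨C, hC⟩ := (isCompact_Icc (a := (0 : ℝ)) (b := 2)).exists_bound_of_continuousOn
      continuous_negMulLog.continuousOn
    exact bdd (continuous_negMulLog.comp (cR a b)) C fun x => hC _ ⟨(p x).1.le, (p x).2⟩
  have k1 : ∫ x, (1 - 1 / 10 ^ 16) + (-1) * R (3 / 5) (4 / 5) x ∂γ ≤ ∫ x, negMulLog (R (3 / 5) (4 / 5) x) ∂γ := by
    refine integral_mono ((integrable_const _).add ((HR h').int.1.const_mul _)) (i p1) fun x => ?_
    obtain ⟨a, b⟩ := abs_le.1 (b1 x)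
    have := log_le_sub_one_of_pos (p1 x).1
    have := (p1 x).1
    simp only [negMulLog]
    nlinarith
  have j1 : Integrable (fun x => (1 - 1 / 10 ^ 14 + 1 / 10 ^ 16) + (-1) * R s s x) γ :=
    (integrable_const _).add ((HR h).int.1.const_mul _)
  have j2 := (Hc (80 * s)).int.1.const_mul (-(1 / (96 * 10 ^ 12)))
  have k2 : ∫ x, negMulLog (R s s x) ∂γ ≤ ∫ x, (1 - 1 / 10 ^ 14 + 1 / 10 ^ 16) + (-1) * R s s x +
      -(1 / (96 * 10 ^ 12)) * cos (80 * s * x) ∂γ := by
    refine integral_mono (i p2) (j1.add j2) fun x => ?_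
    obtain ⟨a, b⟩ := abs_le.1 (b2 h x)
    obtain ⟨q0, q2⟩ := p2 x
    simp only [negMulLog]
    rw [show 80 * s * x = 2 * (40 * s * x) by ring, cos_two_mul]
    generalize cos (40 * s * x) = c at *
    generalize R s s x = r at *
    obtain ⟨u, u0, rfl⟩ : ∃ u > 0, r = u ^ 2 := ⟨√r, sqrt_pos.2 q0, (sq_sqrt q0.le).symm⟩
    have l := one_sub_inv_le_log_of_pos u0
    have l : u ^ 2 - u ≤ u ^ 2 * log u := by
      calc u ^ 2 - u = u ^ 2 * (1 - u⁻¹) := by field_simp
        _ ≤ _ := by gcongr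
    have u2 : u ≤ 1.44 := by nlinarith
    have l2 : (u ^ 2 - 1) ^ 2 ≤ 6 * (u - 1) ^ 2 := by
      have : (u + 1) ^ 2 ≤ 6 := by nlinarith
      nlinarith [mul_le_mul_of_nonneg_right this (sq_nonneg (u - 1))]
    have l3 : (1 / 2000000 * c) ^ 2 / 2 - 1 / 10 ^ 16 ≤ (u ^ 2 - 1) ^ 2 := by
      have : (u ^ 2 - 1 - 1 / 2000000 * c) ^ 2 ≤ 1 / 10 ^ 16 := by nlinarith
      nlinarith [sq_nonneg (2 * (u ^ 2 - 1) - 1 / 2000000 * c)]
    rw [log_pow]
    push_cast
    nlinarith
  rw [integral_add (integrable_const _) ((HR h').int.1.const_mul _), integral_const_mul, one h' n1] at k1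
  rw [integral_add j1 j2, integral_add (integrable_const _) ((HR h).int.1.const_mul _), integral_const_mul,
    integral_const_mul, one h n2, (Hc _).int.2] at k2
  have : 0 ≤ K (80 * s) 0 := by have := E0 (0 - 80 * s); have := E0 (0 + 80 * s); unfold K; positivity
  simp only [integral_const, probReal_univ, smul_eq_mul] at k1 k2
  linarith

end Pool.Agent.H.MP_1d7c3b_pr
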